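import Pool.Agent.H23.DZ.Targets

/-! Modules G1, G2, G3 of `MP_52e316_nt` (zeros of derivatives): bounds for the quotient of
archimedean factors. -/

set_option autoImplicit false

open Complex

namespace Pool.Agent.H34.DZ

open Pool.Agent.H23.DZ Pool.Agent.H23.GLM

theorem Gammaℝ_inv_shift (s : ℂ) (hs : s ≠ 0) :
    (Gammaℝ s)⁻¹ = (Gammaℝ (s + 2))⁻¹ * (s / (2 * (Real.pi : ℂ))) := by
  have hpi : (Real.pi : ℂ) ≠ 0 := by exact_mod_cast Real.pi_pos.ne'
  rw [Gammaℝ_add_two hs]
  by_cases hG : Gammaℝ s = 0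
  · rw [hG]; simp
  · field_simp

theorem Gammaℝ_ne (s : ℂ) (hs : 0 < s.re) : Gammaℝ s ≠ 0 := Gammaℝ_ne_zero_of_re_pos hs

/-- one step of the recursion -/
theorem ratio_rec (z : ℂ) (x : ℝ) :
    ratio z x = ratio (z + 1) (x - 1) * ((z - x) / (2 * (Real.pi : ℂ))) := by
  unfold ratio
  have e1 : z + 1 + ((x - 1 : ℝ) : ℂ) = z + x := by push_cast; ring
  have e2 : z + 1 - ((x - 1 : ℝ) : ℂ) = z - x + 2 := by push_cast; ring
  rw [e1, e2]
  by_cases h : z - x = 0
  · rw [h]
    have : (Gammaℝ 0)⁻¹ = 0 := by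
      rw [inv_eq_zero, Gammaℝ_eq_zero_iff]
      exact ⟨0, by simp⟩
    rw [this]
    simp
  · rw [Gammaℝ_inv_shift _ h]
    ring

theorem g3 : RatioStepStmt := by
  intro x z hx hz hzx
  have hpi : (Real.pi : ℂ) ≠ 0 := by exact_mod_cast Real.pi_pos.ne'
  unfold ratio
  have e1 : z + ((x - 2 : ℝ) : ℂ) = z + x - 2 := by push_cast; ring
  have e2 : z - ((x - 2 : ℝ) : ℂ) = z - x + 2 := by push_cast; ring
  have h1 : z + x - 2 ≠ 0 := by
    intro h
    have := congrArg Complex.re h
    simp at this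
    linarith
  have h2 : Gammaℝ (z + x) = Gammaℝ (z + x - 2) * (z + x - 2) / 2 / Real.pi := by
    rw [← Gammaℝ_add_two h1]; congr 1; ring
  rw [e1, e2, h2, Gammaℝ_inv_shift _ hzx]
  field_simp
  ring

theorem norm_fac (w : ℂ) : ‖w / (2 * (Real.pi : ℂ))‖ = ‖w‖ / (2 * Real.pi) := by
  rw [norm_div, norm_mul, Complex.norm_real, Real.norm_of_nonneg Real.pi_pos.le]
  simp

theorem upper_aux (n : ℕ) : ∃ C : ℝ, 1 ≤ C ∧ ∀ (x : ℝ) (z : ℂ), 0 < x → x ≤ n → 0 ≤ z.re →
    ‖ratio z x‖ ≤ C * (1 + ‖z‖) ^ x := by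
  have hpi := Real.pi_gt_three
  induction n with
  | zero =>
    refine ⟨1, le_rfl, fun x z h1 h2 _ => ?_⟩
    simp at h2
    linarith
  | succ n ih =>
    obtain ⟨C, hC, H⟩ := ih
    refine ⟨max (max C AR) (C * 2 ^ n * (n + 2)), ?_, ?_⟩
    · exact hC.trans ((le_max_left _ _).trans (le_max_left _ _))
    · intro x z hx hxn hz
      have hz1 : 1 ≤ 1 + ‖z‖ := by linarith [norm_nonneg z]
      have hpos : 0 ≤ (1 + ‖z‖) ^ x := by positivity
      by_cases hx1 : x < 1
      · refine (norm_Gammaℝ_ratio hx hx1 hz).trans ?_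
        exact mul_le_mul_of_nonneg_right ((le_max_right _ _).trans (le_max_left _ _)) hpos
      · push Not at hx1
        have hfac : ‖(z - x) / (2 * (Real.pi : ℂ))‖ ≤ (n + 2) * (1 + ‖z‖) := by
          rw [norm_fac, div_le_iff₀ (by positivity)]
          have h1 : ‖z - x‖ ≤ ‖z‖ + x := by
            refine (norm_sub_le _ _).trans ?_
            rw [Complex.norm_real, Real.norm_of_nonneg hx.le]
          push_cast at hxn
          have h2 : 0 ≤ ‖z‖ := norm_nonneg z
          have hn : (0 : ℝ) ≤ n := Nat.cast_nonneg n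
          have h3 : ‖z‖ + x ≤ (n + 2) * (1 + ‖z‖) := by nlinarith
          have h4 : 0 ≤ ((n : ℝ) + 2) * (1 + ‖z‖) := by positivity
          nlinarith
        rcases eq_or_lt_of_le hx1 with h1 | h1
        · rw [ratio_rec, ← h1]
          have h2 : ratio (z + 1) (1 - 1) = 1 := by
            unfold ratio
            have e : Gammaℝ (z + 1) ≠ 0 := Gammaℝ_ne _ (by simp; linarith)
            simp [e]
          rw [h2, one_mul]
          rw [← h1] at hfac
          refine hfac.trans ?_
          rw [Real.rpow_one]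
          refine mul_le_mul_of_nonneg_right ?_ (by positivity)
          refine le_trans ?_ (le_max_right _ _)
          have h3 : 1 ≤ C * 2 ^ n := by
            have : (1 : ℝ) ≤ 2 ^ n := one_le_pow₀ (by norm_num)
            nlinarith
          have h4 : (0 : ℝ) ≤ (n : ℝ) + 2 := by positivity
          nlinarith
        · rw [ratio_rec, norm_mul]
          have h2 := H (x - 1) (z + 1) (by linarith) (by push_cast at hxn; linarith)
            (by simp; linarith)
          have h3 : (1 + ‖z + 1‖) ^ (x - 1) ≤ 2 ^ n * (1 + ‖z‖) ^ (x - 1) := by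
            have h4 : 1 + ‖z + 1‖ ≤ 2 * (1 + ‖z‖) := by
              have : ‖z + 1‖ ≤ ‖z‖ + 1 := by
                refine (norm_add_le _ _).trans ?_
                simp
              linarith [norm_nonneg z]
            calc (1 + ‖z + 1‖) ^ (x - 1) ≤ (2 * (1 + ‖z‖)) ^ (x - 1) :=
                  Real.rpow_le_rpow (by positivity) h4 (by linarith)
              _ = 2 ^ (x - 1) * (1 + ‖z‖) ^ (x - 1) := Real.mul_rpow (by norm_num) (by positivity)
              _ ≤ 2 ^ (n : ℝ) * (1 + ‖z‖) ^ (x - 1) := by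
                  have : (2 : ℝ) ^ (x - 1) ≤ 2 ^ (n : ℝ) :=
                    Real.rpow_le_rpow_of_exponent_le (by norm_num) (by push_cast at hxn; linarith)
                  gcongr
              _ = _ := by rw [Real.rpow_natCast]
          have h5 : (1 + ‖z‖) ^ (x - 1) * (1 + ‖z‖) = (1 + ‖z‖) ^ x := by
            rw [← Real.rpow_add_one (by linarith)]
            congr 1
            ring
          calc ‖ratio (z + 1) (x - 1)‖ * ‖(z - x) / (2 * (Real.pi : ℂ))‖
              ≤ (C * (2 ^ n * (1 + ‖z‖) ^ (x - 1))) * ((n + 2) * (1 + ‖z‖)) := by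
                refine mul_le_mul (h2.trans ?_) hfac (norm_nonneg _) (by positivity)
                gcongr
            _ = C * 2 ^ n * (n + 2) * ((1 + ‖z‖) ^ (x - 1) * (1 + ‖z‖)) := by ring
            _ = C * 2 ^ n * (n + 2) * (1 + ‖z‖) ^ x := by rw [h5]
            _ ≤ _ := mul_le_mul_of_nonneg_right (le_max_right _ _) hpos

theorem g1 : RatioUpperStmt := by
  intro A
  obtain ⟨C, hC, H⟩ := upper_aux ⌈A⌉₊
  exact ⟨C, hC, fun x z hx hxA hz => H x z hx (hxA.trans (Nat.le_ceil A)) hz⟩

theorem lower_aux (η : ℝ) (hη : 0 < η) (n : ℕ) : ∃ c : ℝ, 0 < c ∧ ∀ (x : ℝ) (z : ℂ), -1 < x →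
    x ≤ n → 0 ≤ z.re → 0 < z.re + x → (∀ k : ℕ, η ≤ |z.re - x + 2 * k|) →
    c * (1 + ‖z‖) ^ x ≤ ‖ratio z x‖ := by
  have hpi := Real.pi_gt_three
  have hA := AR_ge
  induction n with
  | zero =>
    refine ⟨AR⁻¹, by positivity, fun x z h1 h2 hz hzx _ => ?_⟩
    simp only [Nat.cast_zero] at h2
    have g1 : Gammaℝ (z + x) ≠ 0 := Gammaℝ_ne _ (by simpa using hzx)
    have g2 : Gammaℝ (z - x) ≠ 0 := Gammaℝ_ne _ (by simp; linarith)
    rcases eq_or_lt_of_le h2 with h3 | h3
    · subst h3
      have : ratio z 0 = 1 := by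
        unfold ratio
        simp only [ofReal_zero, add_zero, sub_zero] at g1 ⊢
        exact mul_inv_cancel₀ g1
      rw [this, Real.rpow_zero, mul_one, norm_one]
      exact inv_le_one_of_one_le₀ (by linarith)
    · have h4 := norm_Gammaℝ_ratio (x := -x) (by linarith) (by linarith) hz
      have e1 : z + ((-x : ℝ) : ℂ) = z - x := by push_cast; ring
      have e2 : z - ((-x : ℝ) : ℂ) = z + x := by push_cast; ring
      rw [e1, e2] at h4
      have h5 : ratio z x = (Gammaℝ (z - x) * (Gammaℝ (z + x))⁻¹)⁻¹ := by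
        unfold ratio
        rw [mul_inv, inv_inv, mul_comm]
      have h6 : 0 < ‖Gammaℝ (z - x) * (Gammaℝ (z + x))⁻¹‖ :=
        norm_pos_iff.mpr (mul_ne_zero g2 (inv_ne_zero g1))
      rw [h5, norm_inv]
      have h7 : AR⁻¹ * (1 + ‖z‖) ^ x = (AR * (1 + ‖z‖) ^ (-x))⁻¹ := by
        rw [mul_inv, ← Real.rpow_neg (by positivity), neg_neg]
      rw [h7]
      exact inv_anti₀ h6 h4
  | succ n ih =>
    obtain ⟨c, hc, H⟩ := ih
    set D : ℝ := (n + 2) / η + 1 with hD
    have hD0 : 0 < D := by positivity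
    refine ⟨min c (c / 2 / (D * (2 * Real.pi))), by positivity, ?_⟩
    intro x z h1 h2 hz hzx hk
    have hz0 : 0 ≤ ‖z‖ := norm_nonneg z
    have hpos : 0 ≤ (1 + ‖z‖) ^ x := by positivity
    by_cases hxn : x ≤ n
    · refine le_trans ?_ (H x z h1 hxn hz hzx hk)
      exact mul_le_mul_of_nonneg_right (min_le_left _ _) hpos
    · push Not at hxn
      push_cast at h2
      have hn : (0 : ℝ) ≤ n := Nat.cast_nonneg n
      have hx0 : 0 < x := by linarith
      rw [ratio_rec, norm_mul]
      have h3 := H (x - 1) (z + 1) (by linarith) (by linarith) (by simp; linarith)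
        (by simp; linarith) (by
          intro k
          have := hk (k + 1)
          push_cast at this
          have e : (z + 1).re - (x - 1) + 2 * (k : ℝ) = z.re - x + 2 * (k + 1) := by
            simp; ring
          rw [e]; exact this)
      have h4 : (1 + ‖z‖) ^ (x - 1) / 2 ≤ (1 + ‖z + 1‖) ^ (x - 1) := by
        have hzz : ‖z‖ ≤ ‖z + 1‖ := by
          rw [← sq_le_sq₀ (norm_nonneg _) (norm_nonneg _), ← Complex.normSq_eq_norm_sq,
            ← Complex.normSq_eq_norm_sq, Complex.normSq_apply, Complex.normSq_apply]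
          simp
          nlinarith
        by_cases hx1 : 0 ≤ x - 1
        · have : (1 + ‖z‖) ^ (x - 1) ≤ (1 + ‖z + 1‖) ^ (x - 1) :=
            Real.rpow_le_rpow (by positivity) (by linarith) hx1
          have h0 : 0 ≤ (1 + ‖z‖) ^ (x - 1) := by positivity
          linarith
        · push Not at hx1
          have h5 : 1 + ‖z + 1‖ ≤ 2 * (1 + ‖z‖) := by
            have : ‖z + 1‖ ≤ ‖z‖ + 1 := by
              refine (norm_add_le _ _).trans ?_
              simp
            linarith
          have h6 : (2 * (1 + ‖z‖)) ^ (x - 1) ≤ (1 + ‖z + 1‖) ^ (x - 1) :=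
            Real.rpow_le_rpow_of_nonpos (by positivity) h5 hx1.le
          refine le_trans ?_ h6
          rw [Real.mul_rpow (by norm_num) (by positivity)]
          have h7 : (1 / 2 : ℝ) ≤ 2 ^ (x - 1) := by
            have : (2 : ℝ) ^ (-1 : ℝ) ≤ 2 ^ (x - 1) :=
              Real.rpow_le_rpow_of_exponent_le (by norm_num) (by linarith)
            rw [Real.rpow_neg_one] at this
            linarith
          have h8 : 0 ≤ (1 + ‖z‖) ^ (x - 1) := by positivity
          nlinarith
      have h9 : (1 + ‖z‖) / D ≤ ‖z - x‖ := by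
        rw [div_le_iff₀ hD0]
        have h10 : η ≤ ‖z - x‖ := by
          have := hk 0
          simp only [Nat.cast_zero, mul_zero, add_zero] at this
          refine this.trans ?_
          have h := Complex.abs_re_le_norm (z - x)
          simpa using h
        have h11 : ‖z‖ ≤ ‖z - x‖ + x := by
          have : z = (z - x) + x := by ring
          calc ‖z‖ = ‖(z - x) + x‖ := by rw [← this]
            _ ≤ ‖z - x‖ + ‖(x : ℂ)‖ := norm_add_le _ _
            _ = _ := by rw [Complex.norm_real, Real.norm_of_nonneg hx0.le]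
        have h12 : (n : ℝ) + 2 ≤ ‖z - x‖ * ((n + 2) / η) := by
          rw [← mul_div_assoc, le_div_iff₀ hη]
          nlinarith
        rw [hD]
        nlinarith
      have h13 : (1 + ‖z‖) ^ (x - 1) * (1 + ‖z‖) = (1 + ‖z‖) ^ x := by
        rw [← Real.rpow_add_one (by positivity)]
        congr 1
        ring
      rw [norm_fac]
      calc min c (c / 2 / (D * (2 * Real.pi))) * (1 + ‖z‖) ^ x
          ≤ (c / 2 / (D * (2 * Real.pi))) * (1 + ‖z‖) ^ x :=
            mul_le_mul_of_nonneg_right (min_le_right _ _) hpos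
        _ = (c * ((1 + ‖z‖) ^ (x - 1) / 2)) * (((1 + ‖z‖) / D) / (2 * Real.pi)) := by
            rw [← h13]; field_simp
        _ ≤ (c * (1 + ‖z + 1‖) ^ (x - 1)) * (‖z - x‖ / (2 * Real.pi)) := by gcongr
        _ ≤ _ := by gcongr

theorem g2 : RatioLowerStmt := by
  intro A η hη
  obtain ⟨c, hc, H⟩ := lower_aux η hη ⌈A⌉₊
  exact ⟨c, hc, fun x z hx hxA hz hk => H x z (by linarith) (hxA.trans (Nat.le_ceil A)) hz
    (by linarith) hk⟩

end Pool.Agent.H34.DZ
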