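import Pool.Agent.H23.DZ.Targets

/-! Module T3 of `MP_52e316_nt` (zeros of derivatives): the three lines theorem, localised by a
Gaussian factor. -/

set_option autoImplicit false

open Complex Set

namespace Pool.Agent.H34.DZ

open Pool.Agent.H23.DZ

theorem gauss_nat (n : ℕ) (v : ℝ) :
    (1 + |v|) ^ n * Real.exp (-(v ^ 2)) ≤ Real.exp ((n : ℝ) ^ 2 / 4) := by
  have h1 : 1 + |v| ≤ Real.exp |v| := by
    have := Real.add_one_le_exp |v|; linarith
  have h2 : (1 + |v|) ^ n ≤ Real.exp (n * |v|) := by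
    rw [Real.exp_nat_mul]
    exact pow_le_pow_left₀ (by positivity) h1 n
  calc (1 + |v|) ^ n * Real.exp (-(v ^ 2)) ≤ Real.exp (n * |v|) * Real.exp (-(v ^ 2)) := by gcongr
    _ = Real.exp (n * |v| - v ^ 2) := by rw [← Real.exp_add]; congr 1
    _ ≤ _ := by
      apply Real.exp_le_exp.mpr
      nlinarith [sq_nonneg (|v| - n / 2), sq_abs v]

theorem t3 : ThreeLinesStmt := by
  intro p
  refine ⟨Real.exp 4 * Real.exp ((p : ℝ) ^ 2 / 4), ?_, ?_⟩
  · rw [← Real.exp_add]
    exact Real.one_le_exp (by positivity)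
  intro f a b t Ma Mb hab hab2 hMa hMb hd ⟨C, n, hgr⟩ hA hB σ hσa hσb
  set K := Real.exp 4 * Real.exp ((p : ℝ) ^ 2 / 4) with hK
  have hK0 : 0 < K := by positivity
  set z0 : ℂ := σ + t * I with hz0
  set g : ℂ → ℂ := fun s => f s * Complex.exp ((s - z0) ^ 2) with hg
  have hexp : ∀ s : ℂ, a ≤ s.re → s.re ≤ b →
      ‖Complex.exp ((s - z0) ^ 2)‖ ≤ Real.exp 4 * Real.exp (-((s.im - t) ^ 2)) := by
    intro s h1 h2
    rw [Complex.norm_exp, ← Real.exp_add]
    apply Real.exp_le_exp.mpr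
    have e : ((s - z0) ^ 2).re = (s.re - σ) ^ 2 - (s.im - t) ^ 2 := by
      rw [sq, Complex.mul_re, hz0]
      simp
      ring
    rw [e]
    have h3 : |s.re - σ| ≤ 2 := by
      rw [abs_le]; constructor <;> linarith
    have h4 : (s.re - σ) ^ 2 ≤ 2 ^ 2 := by
      rw [← sq_abs]
      exact pow_le_pow_left₀ (abs_nonneg _) h3 2
    linarith
  have hz0re : z0.re = σ := by simp [hz0]
  have hz0im : z0.im = t := by simp [hz0]
  have hmem : z0 ∈ HadamardThreeLines.verticalClosedStrip a b := by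
    simp only [HadamardThreeLines.verticalClosedStrip, mem_preimage, hz0re]
    exact ⟨hσa, hσb⟩
  have hC : 0 ≤ C := by
    have h1 := hgr z0 (by rw [hz0re]; exact hσa) (by rw [hz0re]; exact hσb)
    have h2 : 0 < (1 + |z0.im|) ^ n := by positivity
    by_contra hc
    push Not at hc
    have : C * (1 + |z0.im|) ^ n < 0 := mul_neg_of_neg_of_pos hc h2
    linarith [norm_nonneg (f z0)]
  have hdiff : ∀ s : ℂ, a ≤ s.re → s.re ≤ b → DifferentiableAt ℂ g s := by
    intro s h1 h2
    exact (hd s h1 h2).mul (by fun_prop)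
  have hcl : closure (HadamardThreeLines.verticalStrip a b) ⊆ {z : ℂ | a ≤ z.re ∧ z.re ≤ b} := by
    refine closure_minimal (fun z hz => ⟨hz.1.le, hz.2.le⟩) ?_
    exact (isClosed_le continuous_const Complex.continuous_re).inter
      (isClosed_le Complex.continuous_re continuous_const)
  have hDC : DiffContOnCl ℂ g (HadamardThreeLines.verticalStrip a b) :=
    DifferentiableOn.diffContOnCl fun z hz =>
      (hdiff z (hcl hz).1 (hcl hz).2).differentiableWithinAt
  have hBdd : BddAbove ((norm ∘ g) '' HadamardThreeLines.verticalClosedStrip a b) := by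
    refine ⟨C * (1 + |t|) ^ n * (Real.exp 4 * Real.exp ((n : ℝ) ^ 2 / 4)), ?_⟩
    rintro _ ⟨s, hs, rfl⟩
    have h1 := hgr s hs.1 hs.2
    have h2 := hexp s hs.1 hs.2
    have h3 := gauss_nat n (s.im - t)
    have h4 : (1 + |s.im|) ^ n ≤ (1 + |t|) ^ n * (1 + |s.im - t|) ^ n := by
      rw [← mul_pow]
      refine pow_le_pow_left₀ (by positivity) ?_ n
      have : |s.im| ≤ |s.im - t| + |t| := by
        have := abs_add_le (s.im - t) t
        simpa using this
      nlinarith [abs_nonneg (s.im - t), abs_nonneg t,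
        mul_nonneg (abs_nonneg t) (abs_nonneg (s.im - t))]
    simp only [Function.comp, hg, norm_mul]
    calc ‖f s‖ * ‖Complex.exp ((s - z0) ^ 2)‖
        ≤ (C * ((1 + |t|) ^ n * (1 + |s.im - t|) ^ n)) *
          (Real.exp 4 * Real.exp (-((s.im - t) ^ 2))) := by
          refine mul_le_mul (h1.trans ?_) h2 (norm_nonneg _) (by positivity)
          gcongr
      _ = C * (1 + |t|) ^ n * (Real.exp 4 *
          ((1 + |s.im - t|) ^ n * Real.exp (-((s.im - t) ^ 2)))) := by ring
      _ ≤ _ := by gcongr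
  have edge : ∀ (c M : ℝ), a ≤ c → c ≤ b → 0 < M →
      (∀ u : ℝ, ‖f (c + u * I)‖ ≤ M * (1 + |u - t|) ^ p) →
      ∀ z ∈ re ⁻¹' {c}, ‖g z‖ ≤ K * M := by
    intro c M h1 h2 hM hf z hz
    have hzre : z.re = c := hz
    have e : z = c + z.im * I := by
      rw [← hzre]; exact (Complex.re_add_im z).symm
    have h3 := hf z.im
    rw [← e] at h3
    have h4 := hexp z (by rw [hzre]; exact h1) (by rw [hzre]; exact h2)
    have h5 := gauss_nat p (z.im - t)
    simp only [hg, norm_mul]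
    calc ‖f z‖ * ‖Complex.exp ((z - z0) ^ 2)‖
        ≤ (M * (1 + |z.im - t|) ^ p) * (Real.exp 4 * Real.exp (-((z.im - t) ^ 2))) :=
          mul_le_mul h3 h4 (norm_nonneg _) (by positivity)
      _ = M * (Real.exp 4 * ((1 + |z.im - t|) ^ p * Real.exp (-((z.im - t) ^ 2)))) := by ring
      _ ≤ M * (Real.exp 4 * Real.exp ((p : ℝ) ^ 2 / 4)) := by gcongr
      _ = K * M := by rw [hK]; ring
  have key := HadamardThreeLines.norm_le_interp_of_mem_verticalClosedStrip' hab hmem hDC hBdd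
    (edge a Ma le_rfl hab.le hMa hA) (edge b Mb hab.le le_rfl hMb hB)
  have hgz : g z0 = f z0 := by simp [hg]
  rw [hgz, hz0re] at key
  refine key.trans (le_of_eq ?_)
  have hba : b - a ≠ 0 := by linarith
  have e1 : 1 - (σ - a) / (b - a) = (b - σ) / (b - a) := by
    field_simp
    ring
  rw [e1, Real.mul_rpow hK0.le hMa.le, Real.mul_rpow hK0.le hMb.le]
  have e2 : K ^ ((b - σ) / (b - a)) * K ^ ((σ - a) / (b - a)) = K := by
    rw [← Real.rpow_add hK0]
    have : (b - σ) / (b - a) + (σ - a) / (b - a) = 1 := by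
      field_simp
      ring
    rw [this, Real.rpow_one]
  calc K ^ ((b - σ) / (b - a)) * Ma ^ ((b - σ) / (b - a)) *
        (K ^ ((σ - a) / (b - a)) * Mb ^ ((σ - a) / (b - a)))
      = (K ^ ((b - σ) / (b - a)) * K ^ ((σ - a) / (b - a))) * Ma ^ ((b - σ) / (b - a)) *
        Mb ^ ((σ - a) / (b - a)) := by ring
    _ = _ := by rw [e2]

end Pool.Agent.H34.DZ
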